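import Pool.Agent.H224Z.SfinTau
import Pool.Agent.Helper292.ForceCH

set_option autoImplicit false

namespace Pool.Agent.Results.MP_24a1d9_gt.ASfinOmegaTauSquare

open Set

/-- An open cover of `Y`: a family of open sets with union `Y`, not having `Y` as a member. -/
def IsOpenCover {Y : Type} [TopologicalSpace Y] (U : Set (Set Y)) : Prop :=
  (∀ u ∈ U, IsOpen u) ∧ ⋃₀ U = univ ∧ univ ∉ U

/-- omega-covers -/
def IsOmegaCover {Y : Type} [TopologicalSpace Y] (U : Set (Set Y)) : Prop :=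
  IsOpenCover U ∧ ∀ F : Set Y, F.Finite → ∃ u ∈ U, F ⊆ u

/-- tau-covers -/
def IsTauCover {Y : Type} [TopologicalSpace Y] (U : Set (Set Y)) : Prop :=
  IsOpenCover U ∧ (∀ x : Y, {u | u ∈ U ∧ x ∈ u}.Infinite) ∧
    ∀ x y : Y, {u | u ∈ U ∧ x ∈ u ∧ y ∉ u}.Finite ∨ {u | u ∈ U ∧ y ∈ u ∧ x ∉ u}.Finite

/-- The property `S_fin(Ω, T)` of the space `Y`. -/
def SfinOmegaTau (Y : Type) [TopologicalSpace Y] : Prop :=
  ∀ U : ℕ → Set (Set Y), (∀ n, IsOmegaCover (U n)) →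
    ∃ F : ℕ → Set (Set Y), (∀ n, (F n).Finite ∧ F n ⊆ U n) ∧ IsTauCover (⋃ n, F n)

open Pool.Agent.Helper185.Sel in
theorem iff_sel (Y : Type) [TopologicalSpace Y] :
    SfinOmegaTau Y ↔ Sfin (OmegaOf (OpenFam Y)) (TauOf (OpenFam Y)) := by
  constructor
  · intro h U hU
    obtain ⟨F, h1, h2⟩ := h U fun n => ⟨⟨(hU n).1, (hU n).2.1⟩, (hU n).2.2⟩
    exact ⟨F, h1, h2.1.1, h2.1.2, h2.2⟩
  · intro h U hU
    obtain ⟨F, h1, h2⟩ := h U fun n => ⟨(hU n).1.1, (hU n).1.2, (hU n).2⟩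
    exact ⟨F, h1, ⟨h2.1, h2.2.1⟩, h2.2.2⟩

/-- The continuum hypothesis can be forced, and under it `S_fin(Ω, T)` is not preserved by
squares of sets of reals. -/
theorem result :
    (∃ (P : Type) (_ : Preorder P), Nonempty P ∧ ∀ p : P,
      p ∈ Pool.Agent.Helper292.ForceCH.OmegaOnePreserved P ∧
      p ∈ Pool.Agent.Helper292.ForceCH.CHHolds P) ∧
    (Cardinal.aleph 1 = Cardinal.continuum.{0} →
      ∃ X : Set ℝ, SfinOmegaTau X ∧ ¬ SfinOmegaTau (Fin 2 → X)) := by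
  refine ⟨?_, fun hCH => ?_⟩
  · obtain ⟨P, i, h1, h2⟩ := Pool.Agent.Helper292.ForceCH.exists_forcing
    exact ⟨P, i, h1, fun p => ⟨(h2 p).1, (h2 p).2.2⟩⟩
  · obtain ⟨X, h1, h2⟩ := Pool.Agent.H224Z.SfinTau.square hCH
    exact ⟨X, (iff_sel _).2 h1, fun h => h2 ((iff_sel _).1 h)⟩

end Pool.Agent.Results.MP_24a1d9_gt.ASfinOmegaTauSquare
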